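import Pool.Agent.H24.PV.PrDef
import Pool.Agent.H24.PV.CxDef

/-!
# TP/Pi: powers of fusion data, and the shift action of a group on a power indexed by the group
-/

universe u

namespace H24PV

section
variable {k : Type u} [Field k] {L : Type} [Fintype L] [DecidableEq L] {I : Type} [Fintype I]
  [DecidableEq I]

omit [DecidableEq L] in
theorem pi_sum (f : I → L → k) : ∑ x : I → L, ∏ i, f i (x i) = ∏ i, ∑ y, f i y := by
  rw [Finset.prod_univ_sum, Fintype.piFinset_univ]

omit [DecidableEq I] in
theorem pi_ite (P : I → Prop) [∀ i, Decidable (P i)] (R : Prop) [Decidable R]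
    (h : R ↔ ∀ i, P i) : (if R then (1 : k) else 0) = ∏ i, (if P i then 1 else 0) := by
  by_cases hR : R
  · rw [if_pos hR, Finset.prod_eq_one]
    intro i _
    rw [if_pos (h.1 hR i)]
  · rw [if_neg hR]
    have : ∃ i, ¬ P i := by
      by_contra hc
      push Not at hc
      exact hR (h.2 hc)
    obtain ⟨i, hi⟩ := this
    rw [Finset.prod_eq_zero (Finset.mem_univ i) (if_neg hi)]

omit [DecidableEq I] in
theorem pi_ne {f : I → k} (h : ∏ i, f i ≠ 0) (i : I) : f i ≠ 0 :=
  Finset.prod_ne_zero_iff.1 h i (Finset.mem_univ i)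

/-- Powers of fusion data. -/
def FData.pi (D : FData k L) (I : Type) [Fintype I] [DecidableEq I] : FData k (I → L) where
  one := fun _ => D.one
  N a b c := decide (∀ i, D.N (a i) (b i) (c i) = true)
  F a b c d e f := ∏ i, D.F (a i) (b i) (c i) (d i) (e i) (f i)
  G a b c d f e := ∏ i, D.G (a i) (b i) (c i) (d i) (f i) (e i)
  N_one_left := by
    intro a b
    rw [decide_eq_decide, funext_iff]
    simp only [D.N_one_left, decide_eq_true_eq]
  N_one_right := by
    intro a b
    rw [decide_eq_decide, funext_iff]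
    simp only [D.N_one_right, decide_eq_true_eq]
  F_supp := by
    intro a b c d e f h
    refine ⟨decide_eq_true fun i => ?_, decide_eq_true fun i => ?_, decide_eq_true fun i => ?_,
      decide_eq_true fun i => ?_⟩
    · exact (D.F_supp (pi_ne h i)).1
    · exact (D.F_supp (pi_ne h i)).2.1
    · exact (D.F_supp (pi_ne h i)).2.2.1
    · exact (D.F_supp (pi_ne h i)).2.2.2
  G_supp := by
    intro a b c d f e h
    refine ⟨decide_eq_true fun i => ?_, decide_eq_true fun i => ?_, decide_eq_true fun i => ?_,
      decide_eq_true fun i => ?_⟩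
    · exact (D.G_supp (pi_ne h i)).1
    · exact (D.G_supp (pi_ne h i)).2.1
    · exact (D.G_supp (pi_ne h i)).2.2.1
    · exact (D.G_supp (pi_ne h i)).2.2.2
  FG := by
    intro a b c d e e'
    rw [pi_ite (k := k) (fun i => e i = e' i ∧ D.N (a i) (b i) (e i) = true ∧
      D.N (e i) (c i) (d i) = true) _ (by
        rw [funext_iff, decide_eq_true_iff, decide_eq_true_iff, forall_and, forall_and])]
    simp only [← Finset.prod_mul_distrib]
    rw [pi_sum (fun i x => D.F (a i) (b i) (c i) (d i) (e i) x * D.G (a i) (b i) (c i) (d i) x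
      (e' i))]
    exact Finset.prod_congr rfl fun i _ => D.FG _ _ _ _ _ _
  GF := by
    intro a b c d f f'
    rw [pi_ite (k := k) (fun i => f i = f' i ∧ D.N (b i) (c i) (f i) = true ∧
      D.N (a i) (f i) (d i) = true) _ (by
        rw [funext_iff, decide_eq_true_iff, decide_eq_true_iff, forall_and, forall_and])]
    simp only [← Finset.prod_mul_distrib]
    rw [pi_sum (fun i x => D.G (a i) (b i) (c i) (d i) (f i) x * D.F (a i) (b i) (c i) (d i) x
      (f' i))]
    exact Finset.prod_congr rfl fun i _ => D.GF _ _ _ _ _ _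
  F_one_left := by
    intro b c d h
    rw [decide_eq_true_iff] at h
    exact Finset.prod_eq_one fun i _ => D.F_one_left _ _ _ (h i)
  F_one_mid := by
    intro a c d h
    rw [decide_eq_true_iff] at h
    exact Finset.prod_eq_one fun i _ => D.F_one_mid _ _ _ (h i)
  F_one_right := by
    intro a b d h
    rw [decide_eq_true_iff] at h
    exact Finset.prod_eq_one fun i _ => D.F_one_right _ _ _ (h i)
  pentagon := by
    intro a b c d e f g k' l
    simp only [← Finset.prod_mul_distrib]
    rw [pi_sum (fun i x => D.F (a i) (b i) (c i) (g i) (f i) x * D.F (a i) x (d i) (e i) (g i)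
      (k' i) * D.F (b i) (c i) (d i) (k' i) x (l i))]
    exact Finset.prod_congr rfl fun i _ => D.pentagon _ _ _ _ _ _ _ _ _

/-- Duals in a power. -/
def FDual.pi {D : FData k L} (E : FDual D) (I : Type) [Fintype I] [DecidableEq I] :
    FDual (D.pi I) where
  dual a := fun i => E.dual (a i)
  evc a := ∏ i, E.evc (a i)
  dual_dual := by
    intro x
    funext i
    exact E.dual_dual _
  z1 := by
    intro x
    show (∏ i, D.F (x i) (E.dual (x i)) (x i) (x i) D.one D.one) * ∏ i, E.evc (x i) = 1
    rw [← Finset.prod_mul_distrib]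
    exact Finset.prod_eq_one fun i _ => E.z1 _
  z2 := by
    intro x
    show (∏ i, D.G (E.dual (x i)) (x i) (E.dual (x i)) (E.dual (x i)) D.one D.one) *
      ∏ i, E.evc (x i) = 1
    rw [← Finset.prod_mul_distrib]
    exact Finset.prod_eq_one fun i _ => E.z2 _

end

section
variable {k : Type u} [Field k] {L : Type} [Fintype L] [DecidableEq L]
  (Γ : Type) [Group Γ] [Fintype Γ] [DecidableEq Γ]

/-- The shift action of a group on the functions on it. -/
@[reducible] def shiftAct (Γ : Type) [Group Γ] (L : Type) : MulAction Γ (Γ → L) where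
  smul g a := fun x => a (x * g)
  one_smul a := by
    funext x
    show a (x * 1) = a x
    rw [mul_one]
  mul_smul g h a := by
    funext x
    show a (x * (g * h)) = a (x * g * h)
    rw [mul_assoc]

attribute [local instance] shiftAct

omit [Fintype Γ] [DecidableEq Γ] [Fintype L] [DecidableEq L] in
theorem shift_apply (g : Γ) (a : Γ → L) (x : Γ) : (g • a) x = a (x * g) := rfl

theorem FData.pi_fsym (D : FData k L) : FSym (D.pi Γ) Γ where
  one_inv g := rfl
  N_inv g a b c := by
    show decide (∀ i, D.N (a (i * g)) (b (i * g)) (c (i * g)) = true) =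
      decide (∀ i, D.N (a i) (b i) (c i) = true)
    rw [decide_eq_decide]
    constructor
    · intro h i
      have := h (i * g⁻¹)
      rwa [inv_mul_cancel_right] at this
    · intro h i
      exact h _
  F_inv g a b c d e f :=
    Fintype.prod_equiv (Equiv.mulRight g) _ _ fun _ => rfl
  G_inv g a b c d f e :=
    Fintype.prod_equiv (Equiv.mulRight g) _ _ fun _ => rfl

/-- The crossed product of the power `D ^ Γ` with `Γ`. -/
def FData.wr (D : FData k L) : FData k ((Γ → L) × Γ) :=
  (D.pi Γ).cross Γ (D.pi_fsym Γ)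

theorem FData.wr_N (D : FData k L) (a b c : (Γ → L) × Γ) : (D.wr Γ).N a b c = true ↔
    (∀ x, D.N (a.1 x) (b.1 (x * a.2)) (c.1 x) = true) ∧ c.2 = a.2 * b.2 := by
  show (decide (∀ i, D.N (a.1 i) (b.1 (i * a.2)) (c.1 i) = true) && decide (c.2 = a.2 * b.2))
    = true ↔ _
  rw [Bool.and_eq_true, decide_eq_true_iff, decide_eq_true_iff]

/-- Duals of the crossed product. -/
def FDual.wr {D : FData k L} (E : FDual D) : FDual (D.wr Γ) :=
  (E.pi Γ).cross Γ (D.pi_fsym Γ) (fun _ _ => rfl)

end
end H24PV
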