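import Pool.Agent.H24.PV.FzC
import Pool.Agent.H24.TP.Pi

/-!
# TP/Cat: the fusion category of fusion data, tensor powers
-/

open CategoryTheory MonoidalCategory CategoryTheory.Limits CategoryTheory.Idempotents

universe u v w

namespace H24PV

/-- Tensor powers: `tpow X 0 = 𝟙`, `tpow X (n + 1) = tpow X n ⊗ X`. -/
def tpow {C : Type w} [Category.{v} C] [MonoidalCategory C] (X : C) : ℕ → C
  | 0 => 𝟙_ C
  | n + 1 => tpow X n ⊗ X

/-- Invertible objects of a monoidal category. -/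
def IsInvertible {C : Type w} [Category.{v} C] [MonoidalCategory C] (X : C) : Prop :=
  ∃ Y : C, Nonempty (X ⊗ Y ≅ 𝟙_ C) ∧ Nonempty (Y ⊗ X ≅ 𝟙_ C)

section
variable {C : Type w} [Category.{v} C] [MonoidalCategory C]

theorem IsInvertible.tensor {X Y : C} (hX : IsInvertible X) (hY : IsInvertible Y) :
    IsInvertible (X ⊗ Y) := by
  obtain ⟨X', ⟨a⟩, ⟨b⟩⟩ := hX
  obtain ⟨Y', ⟨c⟩, ⟨d⟩⟩ := hY
  refine ⟨Y' ⊗ X', ⟨?_⟩, ⟨?_⟩⟩
  · exact (α_ X Y (Y' ⊗ X')) ≪≫ whiskerLeftIso X ((α_ Y Y' X').symm ≪≫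
      whiskerRightIso c X' ≪≫ λ_ X') ≪≫ a
  · exact (α_ Y' X' (X ⊗ Y)) ≪≫ whiskerLeftIso Y' ((α_ X' X Y).symm ≪≫
      whiskerRightIso b Y ≪≫ λ_ Y) ≪≫ d

theorem IsInvertible.tpow {X : C} (hX : IsInvertible X) (n : ℕ) : IsInvertible (tpow X n) := by
  induction n with
  | zero => exact ⟨𝟙_ C, ⟨λ_ _⟩, ⟨λ_ _⟩⟩
  | succ n ih => exact ih.tensor hX

variable {k : Type u} [Field k] [Preadditive C] [MonoidalPreadditive C] [Linear k C]
  [MonoidalLinear k C]

theorem IsInvertible.finrank_le (k : Type u) [Field k] [Linear k C]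
    [MonoidalLinear k C] {X : C} (hX : IsInvertible X)
    [FiniteDimensional k (𝟙_ C ⟶ 𝟙_ C)] :
    Module.finrank k (X ⟶ X) ≤ Module.finrank k (𝟙_ C ⟶ 𝟙_ C) := by
  obtain ⟨Y, ⟨a⟩, ⟨b⟩⟩ := hX
  let φ : (X ⟶ X) →ₗ[k] (𝟙_ C ⟶ 𝟙_ C) :=
    { toFun := fun f => a.inv ≫ f ▷ Y ≫ a.hom
      map_add' := fun f g => by simp [MonoidalPreadditive.add_whiskerRight]
      map_smul' := fun r f => by simp [MonoidalLinear.smul_whiskerRight] }
  refine LinearMap.finrank_le_finrank_of_injective (f := φ) ?_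
  rw [injective_iff_map_eq_zero]
  intro f hf
  have h1 : f ▷ Y = 0 := by
    have h0 : a.inv ≫ f ▷ Y ≫ a.hom = 0 := hf
    have h2 : f ▷ Y = a.hom ≫ (a.inv ≫ f ▷ Y ≫ a.hom) ≫ a.inv := by simp
    rw [h2, h0, zero_comp, comp_zero]
  have h2 : f ▷ (Y ⊗ X) = 0 := by
    rw [whiskerRight_tensor, h1, MonoidalPreadditive.zero_whiskerRight, zero_comp, comp_zero]
  have h3 : f ▷ (𝟙_ C) = 0 := by
    have : f ▷ (𝟙_ C) = X ◁ b.inv ≫ f ▷ (Y ⊗ X) ≫ X ◁ b.hom := by
      rw [← whisker_exchange, ← MonoidalCategory.whiskerLeft_comp_assoc, b.inv_hom_id,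
        MonoidalCategory.whiskerLeft_id, Category.id_comp]
    rw [this, h2, zero_comp, comp_zero]
  have h4 : f = (ρ_ X).inv ≫ f ▷ (𝟙_ C) ≫ (ρ_ X).hom := by simp
  rw [h4, h3, zero_comp, comp_zero]

/-- The Karoubi envelope functor is monoidal. -/
def kaTensorIso (X Y : C) : (toKaroubi C).obj X ⊗ (toKaroubi C).obj Y ≅
    (toKaroubi C).obj (X ⊗ Y) where
  hom := ⟨𝟙 (X ⊗ Y), by
    show (𝟙 X ⊗ₘ 𝟙 Y) ≫ 𝟙 _ ≫ 𝟙 _ = 𝟙 _
    simp⟩
  inv := ⟨𝟙 (X ⊗ Y), by
    show 𝟙 _ ≫ 𝟙 _ ≫ (𝟙 X ⊗ₘ 𝟙 Y) = 𝟙 _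
    simp⟩
  hom_inv_id := by
    apply Karoubi.hom_ext
    show 𝟙 _ ≫ 𝟙 _ = (𝟙 X ⊗ₘ 𝟙 Y)
    simp
  inv_hom_id := by
    apply Karoubi.hom_ext
    show 𝟙 _ ≫ 𝟙 _ = 𝟙 _
    simp

end

section
variable {C : Type w} [Category.{v} C] {k : Type u} [Field k] [Preadditive C] [Linear k C]

/-- Homs in the Karoubi envelope. -/
def kaHomEquiv (X Y : C) : ((toKaroubi C).obj X ⟶ (toKaroubi C).obj Y) ≃ₗ[k] (X ⟶ Y) where
  toFun f := f.f
  invFun f := ⟨f, by
    show 𝟙 _ ≫ f ≫ 𝟙 _ = f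
    simp⟩
  left_inv f := rfl
  right_inv f := rfl
  map_add' f g := rfl
  map_smul' r f := rfl

end

section
variable {k : Type u} [Field k] {L : Type} [Fintype L] [DecidableEq L] (D : FData k L)

/-- The Karoubi envelope of the category of families is abelian. -/
@[reducible] noncomputable def KF.abelian : Abelian (Karoubi (Fam D)) :=
  haveI := Fam.hasFiniteBiproducts (D := D)
  haveI : HasFiniteBiproducts (Karoubi (Fam D)) := Karoubi.karoubi_hasFiniteBiproducts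
  (Fam.regular D).karoubi.abelian

theorem finrank_lb1 (a : L) :
    Module.finrank k (Fam.lb D a ⟶ Fam.lb D a) = 1 := by
  rw [Fam.finrank_hom, Fintype.card_eq_one_iff]
  exact ⟨⟨((), ()), by simp [Fam.cmp]⟩, fun y => Subsingleton.elim _ _⟩

theorem finrank_kb (a : L) : Module.finrank k
    ((toKaroubi (Fam D)).obj (Fam.lb D a) ⟶ (toKaroubi (Fam D)).obj (Fam.lb D a)) = 1 := by
  rw [← finrank_lb1 D a]
  exact LinearEquiv.finrank_eq (kaHomEquiv _ _)

theorem finrank_lb2 (a b : L) {c d : L} (hcd : c ≠ d) (hc : D.N a b c = true)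
    (hd : D.N a b d = true) :
    2 ≤ Module.finrank k ((Fam.lb D a ⊗ Fam.lb D b : Fam D) ⟶ (Fam.lb D a ⊗ Fam.lb D b : Fam D)) := by
  show 2 ≤ Module.finrank k (Fam.tObj (Fam.lb D a) (Fam.lb D b) ⟶ Fam.tObj (Fam.lb D a) (Fam.lb D b))
  rw [Fam.finrank_hom]
  rw [show 2 = Fintype.card Bool from rfl]
  refine Fintype.card_le_of_injective (fun t : Bool => if t then
    (⟨(((), (), c), ((), (), c)), by simp [Fam.cmp, hc]⟩ :
      {p : (Unit × Unit × L) × (Unit × Unit × L) //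
        Fam.cmp (Fam.tObj (Fam.lb D a) (Fam.lb D b)) (Fam.tObj (Fam.lb D a) (Fam.lb D b))
          p.1 p.2 = true})
    else ⟨(((), (), d), ((), (), d)), by simp [Fam.cmp, hd]⟩) ?_
  intro s t h
  cases s <;> cases t
  · rfl
  · simp at h; exact absurd h.symm hcd
  · simp at h; exact absurd h hcd
  · rfl

/-- The product of two labels with a single channel. -/
def lbTensorIso (a b d : L) (h : ∀ c, D.N a b c = true ↔ c = d) :
    (Fam.lb D a ⊗ Fam.lb D b : Fam D) ≅ Fam.lb D d where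
  hom := Fam.Hom.mk (X := Fam.tObj (Fam.lb D a) (Fam.lb D b)) (Y := Fam.lb D d)
    (fun (s : Unit × Unit × L) _ => if s.2.2 = d then 1 else 0) (by
      apply Fam.Hom.ofne
      rintro ⟨i, j, c⟩ u hne
      by_cases hc : c = d
      · subst hc
        exact ⟨(h c).2 rfl, rfl, rfl⟩
      · exact absurd (if_neg hc) hne)
  inv := Fam.Hom.mk (X := Fam.lb D d) (Y := Fam.tObj (Fam.lb D a) (Fam.lb D b))
    (fun _ (s : Unit × Unit × L) => if s.2.2 = d then 1 else 0) (by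
      apply Fam.Hom.ofne
      rintro u ⟨i, j, c⟩ hne
      by_cases hc : c = d
      · subst hc
        exact ⟨rfl, (h c).2 rfl, rfl⟩
      · exact absurd (if_neg hc) hne)
  hom_inv_id := by
    apply Fam.hom_ext
    rintro ⟨i, j, c⟩ ⟨i', j', c'⟩
    show ∑ l : Unit, (if c = d then (1 : k) else 0) * (if c' = d then 1 else 0) =
      if ((i, j, c) : Unit × Unit × L) = (i', j', c') ∧ D.N a b c = true then 1 else 0
    rw [Fintype.sum_unique]
    by_cases hc : c = d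
    · subst hc
      by_cases hc' : c' = c
      · subst hc'
        rw [if_pos rfl, if_pos ⟨rfl, (h c').2 rfl⟩, mul_one]
      · rw [if_neg hc', mul_zero, if_neg]
        rintro ⟨h1, _⟩
        exact hc' (Prod.mk.inj (Prod.mk.inj h1).2).2.symm
    · rw [if_neg hc, zero_mul, if_neg]
      rintro ⟨_, h2⟩
      exact hc ((h c).1 h2)
  inv_hom_id := by
    apply Fam.hom_ext
    rintro u v
    show ∑ s : Unit × Unit × L, (if s.2.2 = d then (1 : k) else 0) * (if s.2.2 = d then 1 else 0) =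
      if u = v ∧ true = true then 1 else 0
    rw [Fintype.sum_prod_type, Fintype.sum_unique, Fintype.sum_prod_type, Fintype.sum_unique,
      Finset.sum_eq_single d, if_pos rfl, if_pos ⟨rfl, rfl⟩, mul_one]
    · intro b _ hb
      rw [if_neg hb, mul_zero]
    · intro hn
      exact absurd (Finset.mem_univ _) hn

/-- The fusion category of fusion data with duals. -/
noncomputable def mkFusion1 (E : FDual D) : FusionCat k :=
  letI ab := KF.abelian D
  letI rg := E.rigid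
  { C := Karoubi (Fam D)
    ab := ab
    lin := Ka.instLinear k
    mon := inferInstance
    monPre := (inferInstance : MonoidalPreadditive (Karoubi (Fam D)))
    monLin := (inferInstance : MonoidalLinear k (Karoubi (Fam D)))
    rig := Ka.rigid
    finHom := Ka.finDim k (fun X Y => Fam.finDim X Y)
    unit_simple := simple_of_end k (Fam.regular D).karoubi _ (finrank_kb D D.one)
    semisimple := decomp k (Fam.regular D).karoubi (Ka.finDim k (fun X Y => Fam.finDim X Y))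
    finite := finite_simples k (Fam.regular D).karoubi (Ka.finDim k (fun X Y => Fam.finDim X Y))
      _ (Fam.gen D).karoubi }

end
end H24PV
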