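import Pool.Agent.H24.TP.Main

/-!
# TP/Fin: simple tensor powers, the theorem
-/

open CategoryTheory MonoidalCategory CategoryTheory.Limits CategoryTheory.Idempotents

universe u v w

namespace H24PV

theorem IS_N_two (c : Fin 3) (hc : c = 0 ∨ c = 1) {k : Type u} [Field k] (z : k)
    (hz : z ^ 16 = -1) (h4 : (4 : k) ≠ 0) :
    (IS.fdata z hz (by norm_num) h4 IS_ok).N 2 2 c = true := by
  show IS.N ((2 : Fin 3) : ℕ) ((2 : Fin 3) : ℕ) (c : ℕ) = true
  rcases hc with rfl | rfl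
  · decide +kernel
  · decide +kernel

theorem exists_simple_tpow (k : Type u) [Field k] [IsAlgClosed k] (h2 : (2 : k) ≠ 0) (n : ℕ)
    (hn : 0 < n) : ∃ (F : FusionCat.{u, u, max 1 u} k) (X : F.C), Simple X ∧
      ¬ IsInvertible X ∧ Simple (tpow X n) ∧ ¬ Simple (tpow X (n + 1)) := by
  have h4 : (4 : k) ≠ 0 := by
    have : (4 : k) = 2 * 2 := by norm_num
    rw [this]; exact mul_ne_zero h2 h2
  obtain ⟨z, hz⟩ := IsAlgClosed.exists_pow_nat_eq (-1 : k) (n := 16) (by norm_num)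
  haveI : NeZero n := ⟨hn.ne'⟩
  let D : FData k (Fin 3) := IS.fdata z hz (by norm_num) h4 IS_ok
  let E : FDual D := IS.fdual z hz (by norm_num) h4 IS_ok ISd ISd_ok
  let F : FusionCat.{u, u, max 1 u} k := mkFusion1 (D.wr (Cyc n)) (E.wr (Cyc n))
  let X : F.C := pob D 2 n 1
  have hfin : 2 ≤ Module.finrank k (tpow X (n + 1) ⟶ tpow X (n + 1)) :=
    tpow_finrank D 2 n (c := 0) (d := 1) (by decide) (IS_N_two 0 (Or.inl rfl) z hz h4)
      (IS_N_two 1 (Or.inr rfl) z hz h4)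
  have hunit : Module.finrank k (𝟙_ F.C ⟶ 𝟙_ F.C) = 1 := by
    haveI := F.unit_simple
    haveI := F.finHom (𝟙_ F.C) (𝟙_ F.C)
    exact finrank_endomorphism_simple_eq_one k (𝟙_ F.C)
  refine ⟨F, X, ?_, ?_, tpow_simple D 2 n E le_rfl, ?_⟩
  · exact simple_of_end k (Fam.regular _).karoubi _ (finrank_kb _ _)
  · intro hX
    haveI := F.finHom (𝟙_ F.C) (𝟙_ F.C)
    have h3 := IsInvertible.finrank_le k (hX.tpow (n + 1))
    omega
  · intro hs
    haveI := F.finHom (tpow X (n + 1)) (tpow X (n + 1))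
    have h3 := finrank_endomorphism_simple_eq_one k (tpow X (n + 1))
    omega

end H24PV
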