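import Pool.Agent.H24.TP.Cat
import Pool.Agent.H24.PV.CkIS
import Pool.Agent.H24.PV.DtG

/-!
# TP/Main: simple tensor powers
-/

open CategoryTheory MonoidalCategory CategoryTheory.Limits CategoryTheory.Idempotents

universe u v w

namespace H24PV

/-- The cyclic group of order `n`. -/
def Cyc (n : ℕ) : Type := Multiplicative (ZMod n)

namespace Cyc
variable (n : ℕ) [NeZero n]

instance : CommGroup (Cyc n) := inferInstanceAs (CommGroup (Multiplicative (ZMod n)))
instance : Fintype (Cyc n) := inferInstanceAs (Fintype (ZMod n))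
instance : DecidableEq (Cyc n) := inferInstanceAs (DecidableEq (ZMod n))

variable {n}

/-- Power of the generator. -/
def pw (j : ℕ) : Cyc n := Multiplicative.ofAdd ((j : ℕ) : ZMod n)

/-- Position of an element. -/
def ps (x : Cyc n) : ℕ := ZMod.val (-(Multiplicative.toAdd x : ZMod n))

theorem pw_succ (j : ℕ) : (pw j * pw 1 : Cyc n) = pw (j + 1) := by
  show Multiplicative.ofAdd ((j : ZMod n) + ((1 : ℕ) : ZMod n)) = Multiplicative.ofAdd _
  rw [← Nat.cast_add]

theorem pw_zero : (pw 0 : Cyc n) = 1 := by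
  show Multiplicative.ofAdd (((0 : ℕ) : ZMod n)) = 1
  rw [Nat.cast_zero]; rfl

theorem pw_self : (pw n : Cyc n) = 1 := by
  show Multiplicative.ofAdd (((n : ℕ) : ZMod n)) = 1
  rw [ZMod.natCast_self]; rfl

theorem ps_lt (x : Cyc n) : ps x < n := ZMod.val_lt _

theorem ps_mul (x : Cyc n) {j : ℕ} (hj : j < n) : ps (x * pw j) < 1 ↔ ps x = j := by
  have h1 : ps (x * pw j) = ZMod.val (-(Multiplicative.toAdd x : ZMod n) - (j : ZMod n)) := by
    show ZMod.val (-((Multiplicative.toAdd x : ZMod n) + (j : ZMod n))) = _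
    rw [neg_add, sub_eq_add_neg]
  rw [h1, Nat.lt_one_iff, ZMod.val_eq_zero, sub_eq_zero]
  show -(Multiplicative.toAdd x : ZMod n) = (j : ZMod n) ↔ ZMod.val _ = j
  constructor
  · intro h
    rw [h, ZMod.val_natCast, Nat.mod_eq_of_lt hj]
  · intro h
    rw [← h, ZMod.natCast_zmod_val]

theorem ps_one : ps (1 : Cyc n) = 0 := by
  show ZMod.val (-(0 : ZMod n)) = 0
  rw [neg_zero, ZMod.val_zero]

end Cyc

section
variable {k : Type u} [Field k] {L : Type} [Fintype L] [DecidableEq L] (D : FData k L) (y : L)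
  (n : ℕ) [NeZero n]

/-- The configuration with `j` entries `y`. -/
def cst (j : ℕ) : Cyc n → L := fun x => if Cyc.ps x < j then y else D.one

/-- The label of the `j`-th tensor power. -/
def plab (j : ℕ) : (Cyc n → L) × Cyc n := (cst D y n j, Cyc.pw j)

theorem cst_step {j : ℕ} (hj : j < n) (x : Cyc n) (d : L) :
    D.N (cst D y n j x) (cst D y n 1 (x * Cyc.pw j)) d = decide (cst D y n (j + 1) x = d) := by
  have h1 : cst D y n 1 (x * Cyc.pw j) = if Cyc.ps x = j then y else D.one := by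
    show (if Cyc.ps (x * Cyc.pw j) < 1 then y else D.one) = _
    simp only [Cyc.ps_mul x hj]
  rw [h1]
  show D.N (if Cyc.ps x < j then y else D.one) _ d =
    decide ((if Cyc.ps x < j + 1 then y else D.one) = d)
  rcases lt_trichotomy (Cyc.ps x) j with h | h | h
  · rw [if_pos h, if_neg (by omega), if_pos (by omega), D.N_one_right]
  · rw [if_neg (by omega), if_pos h, if_pos (by omega), D.N_one_left]
  · rw [if_neg (by omega), if_neg (by omega), if_neg (by omega), D.N_one_left]

theorem plab_step {j : ℕ} (hj : j < n) (c : (Cyc n → L) × Cyc n) :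
    (D.wr (Cyc n)).N (plab D y n j) (plab D y n 1) c = true ↔ c = plab D y n (j + 1) := by
  rw [FData.wr_N]
  show (∀ x, D.N (cst D y n j x) (cst D y n 1 (x * Cyc.pw j)) (c.1 x) = true) ∧
    c.2 = Cyc.pw j * Cyc.pw 1 ↔ _
  rw [Cyc.pw_succ]
  simp only [cst_step D y n hj, decide_eq_true_eq]
  constructor
  · rintro ⟨h1, h2⟩
    exact Prod.ext (funext fun x => (h1 x).symm) h2
  · rintro rfl
    exact ⟨fun x => rfl, rfl⟩

theorem plab_zero : plab D y n 0 = (D.wr (Cyc n)).one := by
  refine Prod.ext ?_ Cyc.pw_zero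
  funext x
  show (if Cyc.ps x < 0 then y else D.one) = D.one
  exact if_neg (Nat.not_lt_zero _)

theorem plab_last {c : L} (hc : D.N y y c = true) :
    (D.wr (Cyc n)).N (plab D y n n) (plab D y n 1)
      ((fun x => if x = 1 then c else y), Cyc.pw n * Cyc.pw 1) = true := by
  rw [FData.wr_N]
  refine ⟨fun x => ?_, rfl⟩
  show D.N (cst D y n n x) (cst D y n 1 (x * Cyc.pw n)) (if x = 1 then c else y) = true
  rw [Cyc.pw_self, mul_one]
  have h1 : cst D y n n x = y := if_pos (Cyc.ps_lt x)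
  rw [h1]
  have h2 : Cyc.ps x < 1 ↔ x = 1 := by
    have h3 := Cyc.ps_mul x (j := 0) (Nat.pos_of_ne_zero (NeZero.ne n))
    rw [Cyc.pw_zero, mul_one] at h3
    rw [h3]
    constructor
    · intro h
      have h4 : (-(Multiplicative.toAdd x : ZMod n)) = 0 := (ZMod.val_eq_zero _).1 h
      have h5 : (Multiplicative.toAdd x : ZMod n) = 0 := neg_eq_zero.1 h4
      exact h5
    · rintro rfl
      exact Cyc.ps_one
  show D.N y (if Cyc.ps x < 1 then y else D.one) (if x = 1 then c else y) = true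
  by_cases hx : x = 1
  · rw [if_pos (h2.2 hx), if_pos hx]; exact hc
  · rw [if_neg (fun h => hx (h2.1 h)), if_neg hx, D.N_one_right, decide_eq_true_iff]

/-- The object. -/
abbrev pob (j : ℕ) : Karoubi (Fam (D.wr (Cyc n))) :=
  (toKaroubi _).obj (Fam.lb _ (plab D y n j))

/-- The tensor powers. -/
theorem tpow_iso {j : ℕ} (hj : j ≤ n) : Nonempty (tpow (pob D y n 1) j ≅ pob D y n j) := by
  induction j with
  | zero =>
    refine ⟨(toKaroubi _).mapIso (eqToIso ?_)⟩
    show Fam.lb _ (D.wr (Cyc n)).one = _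
    rw [plab_zero]
  | succ j ih =>
    obtain ⟨e⟩ := ih (by omega)
    exact ⟨whiskerRightIso e _ ≪≫ kaTensorIso _ _ ≪≫
      (toKaroubi _).mapIso (lbTensorIso _ _ _ _ (plab_step D y n (by omega)))⟩

variable (E : FDual D)

theorem tpow_simple {j : ℕ} (hj : j ≤ n) :
    Simple (C := (mkFusion1 (D.wr (Cyc n)) (E.wr (Cyc n))).C)
      (tpow (C := (mkFusion1 (D.wr (Cyc n)) (E.wr (Cyc n))).C) (pob D y n 1) j) := by
  obtain ⟨e⟩ := tpow_iso D y n hj
  have h1 : Simple (C := (mkFusion1 (D.wr (Cyc n)) (E.wr (Cyc n))).C) (pob D y n j) :=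
    simple_of_end k (Fam.regular _).karoubi _ (finrank_kb _ _)
  exact @Simple.of_iso _ _ _ _ _ h1 e

theorem finrank_iso {C : Type w} [Category.{v} C] [Preadditive C] [Linear k C] {X Y : C}
    (e : X ≅ Y) : Module.finrank k (X ⟶ X) = Module.finrank k (Y ⟶ Y) := by
  refine LinearEquiv.finrank_eq
    { toFun := fun f => e.inv ≫ f ≫ e.hom
      invFun := fun f => e.hom ≫ f ≫ e.inv
      left_inv := fun f => by simp
      right_inv := fun f => by simp
      map_add' := fun f g => by simp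
      map_smul' := fun r f => by simp }

theorem tpow_finrank {c d : L} (hcd : c ≠ d) (hc : D.N y y c = true) (hd : D.N y y d = true) :
    2 ≤ Module.finrank k (tpow (pob D y n 1) (n + 1) ⟶ tpow (pob D y n 1) (n + 1)) := by
  obtain ⟨e⟩ := tpow_iso D y n le_rfl
  let e' : tpow (pob D y n 1) (n + 1) ≅ (toKaroubi _).obj
    ((Fam.lb _ (plab D y n n) ⊗ Fam.lb _ (plab D y n 1) : Fam (D.wr (Cyc n)))) :=
    whiskerRightIso e _ ≪≫ kaTensorIso _ _
  rw [finrank_iso (k := k) e', LinearEquiv.finrank_eq (kaHomEquiv (k := k) _ _)]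
  refine finrank_lb2 (D.wr (Cyc n)) _ _ ?_ (plab_last D y n hc) (plab_last D y n hd)
  intro h
  have h1 := congrFun (Prod.mk.inj h).1 1
  rw [if_pos rfl, if_pos rfl] at h1
  exact hcd h1

end
end H24PV
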